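import Mathlib
import Pool.Agent.Run7.h742.SZ.Ls

/-!
# Lang and Silverman's lower bound at almost all integral points of affine space, for all forms of
# the powers of all elliptic curves

Let `j = F / G` be a rational function of `n ≥ 1` variables, of degree `D`, whose poles have the weight
`ω` (a hyperplane counts for `1`, an irreducible hypersurface of higher degree for `2`). For almost all
integral points `x` of the affine space, in fact for almost all rational points with any given set of
denominators, the lower bound of Lang and Silverman holds for all elliptic curves `E` of invariant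
`j (x)` over all number fields `K` of degree at most `d` and for all forms over `K` of the powers `E ^ g`,
with a constant `c > 0` that depends only on `d`, `g`, `κ` (see below) and on an upper bound of `D / ω`,
not on `j`, not on `n`.  The exceptional set does not depend on `j` either.

`E : y² = x³ + a x + b` is an elliptic curve of invariant `j` with `a`, `b` integral of height at
most `κ (1 + h(j))`; every `j ≠ 0, 1728` has such an equation for a `κ` which depends on `d` only
(starting file `EveryOneParameterFamily`, part (2)).  A finite Galois extension `L` of `K` and a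
representation `ρ` of its group by integral matrices of size `g` define an abelian variety `A` over `K`,
the form of `E ^ g` with `A(K) = {P ∈ E(L) ^ g | ρ(σ) σ(P) = P for all σ}` (`FixedPt ρ P`); for `g = 1`
these are `E` and all its quadratic twists.  A symmetric positive definite integral matrix `M` with
`ρ(σ)ᵀ M ρ(σ) = M` (`Polar ρ M`) is a polarization of `A` over `K`; the corresponding absolute
canonical height is `chatM M P / [L : ℚ]`.

`Pts L a b` is the group of points over `L`, `sht P` the height of the `x`-coordinate, `chat P` the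
canonical height (`ChatLim`: the limit of `4⁻ⁿ sht (2ⁿ P)`), and `RamPrimes K T` says that for each
prime `v` in `T` there is `σ ≠ 1` in the inertia group.  `logNorms T` is the sum of `log N v`,
`v ∈ T`, and `absH` is the absolute logarithmic height.  `DenseOrbit ρ P` says that no non-zero
homomorphism from `E ^ g` to `E` given by integers kills, modulo torsion, all `φ(P)`, `φ` an
integral matrix commuting with `ρ`, that is an endomorphism of `A` over `K`.  `Generates P` says
that `σ(P) ≠ P` for `σ ≠ 1`.
-/

set_option autoImplicit false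

namespace Pool.Agent.Results.MP_9a3c31_nt.IntegralPointsAllForms

open Pool.Agent.TH910.LS Pool.Agent.Y725.LS NumberField IsDedekindDomain MvPolynomial

/-- the bound, with constant `c`, for all forms of dimension `g` of the powers of the curve
`y² = x³ + a x + b` over `K` that are split by `L` -/
def LangSilverman (c : ℝ) (g : ℕ) {K : Type} [Field K] [NumberField K] (a b : 𝓞 K) (L : Type)
    [Field L] [NumberField L] [Algebra K L] [DecidableEq L] : Prop :=
  ∀ (ρ : (L ≃ₐ[K] L) →* Matrix (Fin g) (Fin g) ℤ) (M : Matrix (Fin g) (Fin g) ℤ)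
    (P : Fin g → Pts L a b) (T : Finset (HeightOneSpectrum (𝓞 L))),
    Polar ρ M → FixedPt ρ P → RamPrimes K T →
    (Generates P ∧ ¬ IsOfFinAddOrder P) ∨ (Faithful ρ ∧ DenseOrbit ρ P) →
      c * (1 + absH (jinv (a : K) b) + logNorms T / Module.finrank ℚ L) ≤
        chatM M P / Module.finrank ℚ L

/-- the bound, with constant `c`, holds for all elliptic curves of invariant `j` over all number
fields of degree at most `d`, given by an integral equation `y² = x³ + a x + b` whose coefficients
have height at most `κ (1 + h(j))`, and for all forms of dimension `g` of their powers -/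
def HoldsAt (c : ℝ) (d g : ℕ) (κ : ℝ) (j : ℚ) : Prop :=
  ∀ (K : Type) [Field K] [NumberField K], Module.finrank ℚ K ≤ d →
    ∀ a b : 𝓞 K, 4 * (a : K) ^ 3 + 27 * (b : K) ^ 2 ≠ 0 →
      absH (a : K) + absH (b : K) ≤ κ * (1 + absH (jinv (a : K) b)) → jinv (a : K) b = (j : K) →
      ∀ (L : Type) [Field L] [NumberField L] [Algebra K L] [IsGalois K L] [DecidableEq L],
        ChatLim L a b ∧ LangSilverman c g a b L

/-- `max |x_j|` -/
def H {n : ℕ} (x : Fin (n + 1) → ℤ) : ℕ := Finset.univ.sup fun j => (x j).natAbs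

/-- the rational points of the affine space `𝔸^n = ℙ^n ∖ {x 0 = 0}` with denominator in `M` and
with `H x ≤ B`: the point `(x 1 / x 0, …, x n / x 0)` is given by its coprime integer coordinates
with `x 0 > 0`, and `x 0` is its denominator. `M = {1}`: the integral points -/
def Points (n : ℕ) (M : Set ℕ) (B : ℕ) : Set (Fin (n + 1) → ℤ) :=
  {x | Finset.univ.gcd x = 1 ∧ 0 < x 0 ∧ (x 0).toNat ∈ M ∧ H x ≤ B}

/-- `F`, `G` are forms of degree `D` in `x 0, …, x n`, so `F / G` is a rational function on `𝔸^n`,
and its poles contain the distinct hypersurfaces `P j = 0` of degree `k j`, irreducible over `ℚ`,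
none of which is the hyperplane `x 0 = 0`: `P j` divides `G` and does not divide `F` -/
structure IsInvariant {n q : ℕ} (D : ℕ) (F G : MvPolynomial (Fin (n + 1)) ℤ)
    (P : Fin q → MvPolynomial (Fin (n + 1)) ℤ) (k : Fin q → ℕ) : Prop where
  hF : F.IsHomogeneous D
  hG : G.IsHomogeneous D
  hP : ∀ j, (P j).IsHomogeneous (k j)
  irreducible : ∀ j, Irreducible (map (Int.castRingHom ℚ) (P j))
  distinct : ∀ i j, i ≠ j →
    ¬ Associated (map (Int.castRingHom ℚ) (P i)) (map (Int.castRingHom ℚ) (P j))
  affine : ∀ j, ¬ Associated (map (Int.castRingHom ℚ) (P j)) (X 0)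
  dvd : ∀ j, map (Int.castRingHom ℚ) (P j) ∣ map (Int.castRingHom ℚ) G
  not_dvd : ∀ j, ¬ map (Int.castRingHom ℚ) (P j) ∣ map (Int.castRingHom ℚ) F

/-- the weight of the poles: a pole of degree `1` counts for `1`, a pole of degree at least `2`
counts for `2` -/
def weight {q : ℕ} (k : Fin q → ℕ) : ℝ := ∑ j, ((min (k j) 2 : ℕ) : ℝ)

/-- the points `x` which are not poles of `F / G` and for which the bound with the constant `c` fails for
the invariant `F (x) / G (x)` -/
def Failures {n : ℕ} (F G : MvPolynomial (Fin (n + 1)) ℤ) (c : ℝ) (d g : ℕ) (κ : ℝ) :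
    Set (Fin (n + 1) → ℤ) :=
  {x | x 0 ≠ 0 ∧ eval x G ≠ 0 ∧
    ¬ HoldsAt c d g κ (((eval x F : ℤ) : ℚ) / ((eval x G : ℤ) : ℚ))}

/-- the proportion of the points of `Q` among the points with denominators in `M` of height at most
`B` is at most a negative power of `B`, uniformly in the set `M` -/
def PowerSaving (n : ℕ) (Q : Set (Fin (n + 1) → ℤ)) : Prop :=
  ∃ δ : ℝ, 0 < δ ∧ ∃ C : ℝ, 0 < C ∧ ∀ B : ℕ, 1 ≤ B → ∀ M : Set ℕ,
    ((Points n M B ∩ Q).ncard : ℝ) ≤ C * (B : ℝ) ^ (-δ) * ((Points n M B).ncard : ℝ)

/-- **Lang and Silverman's bound at almost all integral points.** There is a function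
`c (σ, d, g, κ) > 0` such that for every number `n ≥ 1` of variables there is one set `E₀` of relative
density zero among the points with denominators in `M`, uniformly in `M`, with the following properties
for all `σ ≥ 0`, `d`, `g ≥ 1`, `κ ≥ 0` and for all invariants `j = F / G` of `n` variables, of degree `D`,
whose poles have the weight `ω`, with `2 D < σ ω`:
(1) the bound with the constant `c (σ, d, g, κ)` holds for the invariant `j (x)`, for all points `x`
outside a set which contains a power-saving proportion of the points, uniformly in `M`;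
(2) it holds for all points `x` outside `E₀` with `H x > T (j, σ)`, that is for all elliptic curves of
invariant `j (x)` over all number fields of degree at most `d` and all forms of their `g`-th powers. -/
theorem result : ∃ c : ℝ → ℕ → ℕ → ℝ → ℝ, (∀ σ d g κ, 0 < c σ d g κ) ∧
    ∀ n : ℕ, 1 ≤ n → ∃ E₀ : Set (Fin (n + 1) → ℤ),
      (∀ ε : ℝ, 0 < ε → ∃ B₀ : ℕ, ∀ B : ℕ, B₀ ≤ B → ∀ M : Set ℕ,
        ((Points n M B ∩ E₀).ncard : ℝ) ≤ ε * ((Points n M B).ncard : ℝ)) ∧
      ∀ (D q : ℕ) (F G : MvPolynomial (Fin (n + 1)) ℤ)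
        (P : Fin q → MvPolynomial (Fin (n + 1)) ℤ) (k : Fin q → ℕ), IsInvariant D F G P k →
        ∀ σ : ℝ, 0 ≤ σ → 2 * (D : ℝ) < σ * weight k →
          (∀ (d g : ℕ) (κ : ℝ), 0 < g → 0 ≤ κ →
            PowerSaving n (Failures F G (c σ d g κ) d g κ)) ∧
          ∃ T : ℕ, ∀ (d g : ℕ) (κ : ℝ), 0 < g → 0 ≤ κ → ∀ x : Fin (n + 1) → ℤ, x 0 ≠ 0 →
            x ∉ E₀ → T < H x → eval x G ≠ 0 →
              HoldsAt (c σ d g κ) d g κ (((eval x F : ℤ) : ℚ) / ((eval x G : ℤ) : ℚ)) := by
  classical
  have hc : ∀ (σ : ℝ) (d g : ℕ) (κ : ℝ), ∃ c : ℝ, 0 < c ∧ (0 < g → 0 ≤ κ → 0 ≤ σ →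
      ∀ x y : ℤ, Pool.Agent.N365.LS.Enough σ x y → HoldsAt c d g κ (x / y)) := by
    intro σ d g κ
    by_cases h : 0 < g ∧ 0 ≤ κ ∧ 0 ≤ σ
    · obtain ⟨c, hc, h1⟩ := Pool.Agent.N365.LS.of_enough d g h.1 κ σ h.2.1 h.2.2
      exact ⟨c, hc, fun _ _ _ => h1⟩
    · exact ⟨1, one_pos, fun h1 h2 h3 => absurd ⟨h1, h2, h3⟩ h⟩
  choose c hc0 hc1 using hc
  refine ⟨c, hc0, fun n hn => ?_⟩
  obtain ⟨E₀, hE₀, hall⟩ := Run7.h742.SZ.enough_univ hn
  refine ⟨E₀, hE₀, fun D q F G P k h σ hσ hlt => ?_⟩
  have hI : Run7.h742.SZ.Inv D F G P k :=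
    ⟨h.hF, h.hG, ⟨h.hP, h.irreducible, h.distinct, h.affine⟩, h.dvd, h.not_dvd⟩
  refine ⟨fun d g κ hg hκ => ?_, ?_⟩
  · refine (Run7.h742.SZ.enough_ps hn hI hlt).mono ?_
    rintro x ⟨hx, hG, hH⟩
    exact ⟨hx, hG, fun hE => hH (hc1 σ d g κ hg hκ hσ _ _ hE)⟩
  · obtain ⟨T, hT⟩ := hall D q F G P k hI σ hlt
    exact ⟨T, fun d g κ hg hκ x hx hxE hTx hG =>
      hc1 σ d g κ hg hκ hσ _ _ (hT x hx hxE hTx hG)⟩

end Pool.Agent.Results.MP_9a3c31_nt.IntegralPointsAllForms
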